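import Pool.Agent.W901.RL.Stm

/-! # Project RL: the label questions are in NP -/

set_option autoImplicit false

namespace Pool.Agent.W85.RL

open Pool.Agent.NPC Pool.Agent.H579R2.Spt Pool.Agent.W901.RL

variable {α : Type} [TEnc α]

theorem lift_poly {p : α → ℕ} {u : α → List Bool} (hp : UPoly p) (hu : Poly u) :
    Poly (fun x => lift (p x) (u x)) := by
  unfold lift
  refine NPC.Poly.flatMap (l := fun x => List.range (p x))
    (F := fun x i => (List.range (p x)).map (fun c => decide (hv (p x) i (u x) = c))) hp.range ?_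
  have e1 : Poly (fun q : α × ℕ => q.1) := NPC.Poly.fst NPC.Poly.id
  refine NPC.Poly.map (l := fun q : α × ℕ => List.range (p q.1))
    (F := fun q c => decide (hv (p q.1) q.2 (u q.1) = c)) (hp.comp e1).range ?_
  have e2 : Poly (fun q : (α × ℕ) × ℕ => q.1.1) := NPC.Poly.fst (NPC.Poly.fst NPC.Poly.id)
  have e3 : Poly (fun q : (α × ℕ) × ℕ => q.1.2) := NPC.Poly.snd (NPC.Poly.fst NPC.Poly.id)
  have e4 : Poly (fun q : (α × ℕ) × ℕ => q.2) := NPC.Poly.snd NPC.Poly.id
  exact NPC.Poly.decide_eq (hv_poly (hp.toPoly.comp e2) e3 (hu.comp e2)) e4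

theorem lbl_poly {p : α → ℕ} {s u : α → List Bool} (hp : UPoly p) (hs : Poly s) (hu : Poly u) :
    Poly (fun x => lbl (p x) (s x) (u x)) :=
  ip_poly hs (lift_poly hp hu)

theorem LAB : S_LAB := by
  intro V0 pp hV0
  have e0 : Poly (fun z : (List Bool × (ℕ × (ℕ × List Bool))) × List Bool => z.1) :=
    NPC.Poly.fst NPC.Poly.id
  have e1 := NPC.Poly.fst e0
  have f1 := NPC.Poly.snd e0
  have e2 := NPC.Poly.fst f1
  have f2 := NPC.Poly.snd f1
  have e3 := NPC.Poly.fst f2
  have e4 := NPC.Poly.snd f2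
  have e5 : Poly (fun z : (List Bool × (ℕ × (ℕ × List Bool))) × List Bool => z.2) :=
    NPC.Poly.snd NPC.Poly.id
  have u1 : UPoly (fun z : (List Bool × (ℕ × (ℕ × List Bool))) × List Bool =>
      pp.eval z.1.1.length) := (UPoly.length e1).eval pp
  have u2 : UPoly (fun z : (List Bool × (ℕ × (ℕ × List Bool))) × List Bool =>
      min z.1.2.1 z.1.2.2.2.length) :=
    UPoly.of_le (NPC.Poly.min e2 (NPC.Poly.length e4)) (UPoly.length e4)
      (fun _ => min_le_right _ _)
  have h0 : Poly (fun z : (List Bool × (ℕ × (ℕ × List Bool))) × List Bool =>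
      List.replicate (pp.eval z.1.1.length) false) := by
    have h := NPC.Poly.map (l := fun z : (List Bool × (ℕ × (ℕ × List Bool))) × List Bool =>
      List.range (pp.eval z.1.1.length)) (F := fun _ _ => false) u1.range (NPC.Poly.const false)
    refine h.congr fun z => ?_
    rw [List.map_const', List.length_range]
  have h1 : Poly (fun z : (List Bool × (ℕ × (ℕ × List Bool))) × List Bool =>
      ver V0 pp z.1.1 z.2 && (decide (z.1.2.2.2.length = z.1.2.1 * z.1.2.1) &&
        lbl (min z.1.2.1 z.1.2.2.2.length) z.1.2.2.2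
          ((z.2 ++ List.replicate (pp.eval z.1.1.length) false).take z.1.2.2.1))) :=
    NPC.Poly.and ((ver_poly hV0 pp).comp (NPC.Poly.pair e1 e5))
      (NPC.Poly.and (NPC.Poly.decide_eq (NPC.Poly.length e4) (NPC.Poly.mul e2 e2))
        (lbl_poly u2 e4 (take_poly' (NPC.Poly.append e5 h0) e3)))
  have hmin : ∀ p n : ℕ, n = p * p → min p n = p := by
    intro p n h
    rw [h]
    rcases Nat.eq_zero_or_pos p with h0 | h0
    · subst h0; rfl
    · exact min_eq_left (Nat.le_mul_of_pos_left p h0)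
  refine inNPP_of (R := fun z => ver V0 pp z.1.1 z.2 &&
    (decide (z.1.2.2.2.length = z.1.2.1 * z.1.2.1) &&
        lbl (min z.1.2.1 z.1.2.2.2.length) z.1.2.2.2
          ((z.2 ++ List.replicate (pp.eval z.1.1.length) false).take z.1.2.2.1))) h1
    (Polynomial.C 4 * pp + 1) ?_
  rintro ⟨x, a⟩
  constructor
  · rintro ⟨w, hw, hl1, hl2⟩
    refine ⟨w, ?_, ?_⟩
    · have h2 : w.length ≤ pp.eval x.length := (ver_iff.1 hw).1
      have h3 := sz_listBool_le w
      have h4 : pp.eval x.length ≤ pp.eval (sz (x, a)) := by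
        refine eval_mono pp ?_
        have := length_lt_sz x
        rw [sz_pair]; omega
      simp only [Polynomial.eval_add, Polynomial.eval_mul, Polynomial.eval_C, Polynomial.eval_one]
      omega
    · simp only [Bool.and_eq_true, decide_eq_true_eq]
      refine ⟨hw, hl1, ?_⟩
      rw [hmin _ _ hl1]
      exact hl2
  · rintro ⟨w, _, hw⟩
    simp only [Bool.and_eq_true, decide_eq_true_eq] at hw
    obtain ⟨h2, h3, h4⟩ := hw
    rw [hmin _ _ h3] at h4
    exact ⟨w, h2, h3, h4⟩

end Pool.Agent.W85.RL
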